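import Pool.Agent.V11101.Dil2

set_option autoImplicit false
set_option linter.unusedSectionVars false

/-!
# MP_6ade77: Schatten-class Lipschitz estimates for contractions approaching norm one

Q1 is answered affirmatively, for every `1 < p < ∞` and every infinite-dimensional complex
Hilbert space: with `f(e^{iθ}) = ∑_{k≥1} cos(kθ)/k²`, `T₁ = 1` and
`T₀ₙ = 1 - (1/m) P` (`P` a projection of rank `⌊m^p⌋`) one has
`‖T₁ - T₀ₙ‖_p ≤ 1` and `‖f(T₁) - f(T₀ₙ)‖_p ≥ (log m)/4`.
-/

open scoped ENNReal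
open ContinuousLinearMap Filter

universe u

namespace Pool.Agent.Results.MP_6ade77_an.ContractionBlowUp

open Pool.Agent.V11101.Dil

variable {H : Type u} [NormedAddCommGroup H] [InnerProductSpace ℂ H] [CompleteSpace H]

/-- A Lipschitz function on the unit circle. -/
def LipschitzOnCircle (f : ℂ → ℂ) : Prop :=
  ∃ C : ℝ, ∀ z w : ℂ, ‖z‖ = 1 → ‖w‖ = 1 → ‖f z - f w‖ ≤ C * ‖z - w‖

/-- `f` restricted to the unit circle belongs to the disk algebra. -/
def InDiskAlgebra (f : ℂ → ℂ) : Prop :=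
  ∃ F : ℂ → ℂ, ContinuousOn F (Metric.closedBall 0 1) ∧
    DifferentiableOn ℂ F (Metric.ball 0 1) ∧ ∀ z : ℂ, ‖z‖ = 1 → F z = f z

/-- The kind of example asked for in Q1. `X1 = f(T1)`, `X0 n = f(T0 n)`. -/
structure Example (p : ℝ) (f : ℂ → ℂ) (T1 X1 : H →L[ℂ] H) (T0 X0 : ℕ → H →L[ℂ] H) : Prop where
  lip : LipschitzOnCircle f
  notDisk : ¬ InDiskAlgebra f
  contr1 : ‖T1‖ ≤ 1
  contr0 : ∀ n, ‖T0 n‖ ≤ 1
  val1 : IsValue f T1 X1
  val0 : ∀ n, IsValue f (T0 n) (X0 n)
  bdd : (⨆ n, schatten p (T1 - T0 n)) < ∞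
  norm_mono : Monotone (fun n => ‖T0 n‖)
  norm_lim : Tendsto (fun n => ‖T0 n‖) atTop (nhds 1)
  fin : ∀ n, schatten p (X1 - X0 n) < ∞
  mono : Monotone (fun n => schatten p (X1 - X0 n))
  lim : Tendsto (fun n => schatten p (X1 - X0 n)) atTop (nhds ∞)

/-- the rank at stage `m` -/
noncomputable def rk (p : ℝ) (m : ℕ) : ℕ := ⌊((m : ℝ) + 1) ^ p⌋₊

theorem rk_le (p : ℝ) (m : ℕ) : (rk p m : ℝ) ≤ ((m : ℝ) + 1) ^ p :=
  Nat.floor_le (by positivity)

theorem le_rk (p : ℝ) (hp : 1 < p) (m : ℕ) : ((m : ℝ) + 1) ^ p / 2 ≤ rk p m := by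
  have h1 : (1 : ℝ) ≤ ((m : ℝ) + 1) ^ p :=
    Real.one_le_rpow (by have := Nat.cast_nonneg (α := ℝ) m; linarith) (by linarith)
  have h2 : 1 ≤ rk p m := Nat.le_floor (by exact_mod_cast h1)
  have h3 : ((m : ℝ) + 1) ^ p < rk p m + 1 := Nat.lt_floor_add_one _
  have h4 : (1 : ℝ) ≤ rk p m := by exact_mod_cast h2
  linarith

theorem rk_rpow_le (p : ℝ) (hp : 1 < p) (m : ℕ) : (rk p m : ℝ) ^ (1 / p) ≤ (m : ℝ) + 1 := by
  have hp0 : 0 < p := by linarith
  calc (rk p m : ℝ) ^ (1 / p) ≤ (((m : ℝ) + 1) ^ p) ^ (1 / p) := by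
        gcongr
        exact rk_le p m
    _ = (m : ℝ) + 1 := by
        rw [← Real.rpow_mul (by positivity), mul_one_div_cancel hp0.ne', Real.rpow_one]

theorem le_rk_rpow (p : ℝ) (hp : 1 < p) (m : ℕ) :
    ((m : ℝ) + 1) / 2 ≤ (rk p m : ℝ) ^ (1 / p) := by
  have hp0 : 0 < p := by linarith
  have h1 : (((m : ℝ) + 1) / 2) ^ p ≤ rk p m := by
    refine le_trans ?_ (le_rk p hp m)
    rw [Real.div_rpow (by positivity) (by norm_num)]
    gcongr
    calc (2 : ℝ) = 2 ^ (1 : ℝ) := by rw [Real.rpow_one]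
      _ ≤ 2 ^ p := Real.rpow_le_rpow_of_exponent_le (by norm_num) hp.le
  calc ((m : ℝ) + 1) / 2 = ((((m : ℝ) + 1) / 2) ^ p) ^ (1 / p) := by
        rw [← Real.rpow_mul (by positivity), mul_one_div_cancel hp0.ne', Real.rpow_one]
    _ ≤ _ := by gcongr

theorem exists_subspace (hH : ¬ FiniteDimensional ℂ H) (k : ℕ) :
    ∃ E : Submodule ℂ H, FiniteDimensional ℂ E ∧ Module.finrank ℂ E = k := by
  have h1 : (k : Cardinal) ≤ Module.rank ℂ H := by
    have : Cardinal.aleph0 ≤ Module.rank ℂ H := by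
      rw [← not_lt]
      intro h
      exact hH (Module.rank_lt_aleph0_iff.1 h)
    exact (Cardinal.natCast_lt_aleph0).le.trans this
  obtain ⟨s, hs, hli⟩ := le_rank_iff_exists_linearIndependent_finset.1 h1
  refine ⟨Submodule.span ℂ (s : Set H), inferInstance, ?_⟩
  rw [← hs]
  exact finrank_span_finset_eq_card hli

theorem norm_op (E : Submodule ℂ H) [FiniteDimensional ℂ E] (hH : ¬ FiniteDimensional ℂ H)
    (r : ℝ) (h0 : 0 ≤ r) (h1 : r ≤ 1) : ‖op r E.starProjection‖ = 1 := by
  apply le_antisymm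
  · -- `op r P = r • 1 + (1-r) • (1-P)`
    have e : op r E.starProjection = ((r : ℝ) : ℂ) • (1 : H →L[ℂ] H) +
        ((1 - r : ℝ) : ℂ) • Eᗮ.starProjection := by
      have : Eᗮ.starProjection = 1 - E.starProjection := by
        rw [Submodule.starProjection_orthogonal]
        rfl
      rw [this]
      unfold op
      rw [smul_sub]
      push_cast
      module
    rw [e]
    calc _ ≤ ‖((r : ℝ) : ℂ) • (1 : H →L[ℂ] H)‖ + ‖((1 - r : ℝ) : ℂ) • Eᗮ.starProjection‖ :=
          norm_add_le _ _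
      _ ≤ r * 1 + (1 - r) * 1 := by
          rw [norm_smul, norm_smul, Complex.norm_real, Complex.norm_real,
            Real.norm_of_nonneg h0, Real.norm_of_nonneg (by linarith)]
          have h5 : ‖(1 : H →L[ℂ] H)‖ ≤ 1 := ContinuousLinearMap.norm_id_le
          have h6 : ‖Eᗮ.starProjection‖ ≤ 1 := Submodule.starProjection_norm_le _
          have h7 : (0 : ℝ) ≤ 1 - r := by linarith
          exact add_le_add (mul_le_mul_of_nonneg_left h5 h0) (mul_le_mul_of_nonneg_left h6 h7)
      _ = 1 := by ring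
  · -- a vector orthogonal to `E`
    have hne : Eᗮ ≠ ⊥ := by
      intro h
      rw [Submodule.orthogonal_eq_bot_iff] at h
      subst h
      exact hH (Module.Finite.of_surjective (⊤ : Submodule ℂ H).subtype
        (fun x => ⟨⟨x, trivial⟩, rfl⟩))
    obtain ⟨x, hx, hx0⟩ := (Submodule.ne_bot_iff _).1 hne
    have h2 : op r E.starProjection x = x := by
      have hPx : E.starProjection x = 0 := by
        rw [Submodule.starProjection_apply_eq_zero_iff]
        exact hx
      unfold op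
      rw [sub_apply, FunLike.coe_smul, Pi.smul_apply, hPx, smul_zero, sub_zero]
      rfl
    have h3 := le_opNorm (op r E.starProjection) x
    rw [h2] at h3
    have h4 : 0 < ‖x‖ := norm_pos_iff.2 hx0
    exact (le_mul_iff_one_le_left h4).1 h3

/-- The affirmative answer to Q1 on the Hilbert space `H`. -/
def HasExample (p : ℝ) (H : Type u) [NormedAddCommGroup H] [InnerProductSpace ℂ H]
    [CompleteSpace H] : Prop :=
  ∃ (f : ℂ → ℂ) (T1 X1 : H →L[ℂ] H) (T0 X0 : ℕ → H →L[ℂ] H), Example p f T1 X1 T0 X0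

/-- The published estimate for pairs with one strict contraction. -/
def StrictEstimate (p : ℝ) (f : ℂ → ℂ) (H : Type u) [NormedAddCommGroup H]
    [InnerProductSpace ℂ H] [CompleteSpace H] : Prop :=
  ∀ t : ℝ, t < 1 → ∃ C : ℝ≥0∞, C < ∞ ∧ ∀ T1 X1 T0 X0 : H →L[ℂ] H, ‖T0‖ ≤ t → ‖T1‖ ≤ 1 →
    schatten p (T1 - T0) < ∞ → IsValue f T1 X1 → IsValue f T0 X0 →
    schatten p (X1 - X0) ≤ C * schatten p (T1 - T0)

/-- No blow up as soon as one `T₀ₘ` is a strict contraction. -/
def StrictBounded (p : ℝ) (f : ℂ → ℂ) (H : Type u) [NormedAddCommGroup H]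
    [InnerProductSpace ℂ H] [CompleteSpace H] : Prop :=
  ∀ (T1 X1 : H →L[ℂ] H) (T0 X0 : ℕ → H →L[ℂ] H), ‖T1‖ ≤ 1 → (∀ n, ‖T0 n‖ ≤ 1) →
    IsValue f T1 X1 → (∀ n, IsValue f (T0 n) (X0 n)) →
    (⨆ n, schatten p (T1 - T0 n)) < ∞ → (∃ m, ‖T0 m‖ < 1) →
    (⨆ n, schatten p (X1 - X0 n)) < ∞

/-- **Main theorem.** Let `1 < p < ∞`.

(1) On every infinite-dimensional complex Hilbert space there are a Lipschitz function `f` on the
circle outside the disk algebra, a contraction `T₁` and contractions `T₀ₙ` as asked for in Q1.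

(2) In such an example all `T₀ₙ` have norm exactly `1`, and this cannot be avoided: if the
published estimate for pairs with one strict contraction (listed as known in the problem) holds for
`p` and `f`, then `sup_n ‖T₁ - T₀ₙ‖_p < ∞` and `‖T₀ₘ‖ < 1` for one `m` imply
`sup_n ‖f(T₁) - f(T₀ₙ)‖_p < ∞`. -/
theorem result (p : ℝ) (hp : 1 < p) (H : Type u) [NormedAddCommGroup H]
    [InnerProductSpace ℂ H] [CompleteSpace H] :
    (¬ FiniteDimensional ℂ H → HasExample p H) ∧
    (∀ f : ℂ → ℂ, StrictEstimate p f H → StrictBounded p f H) := by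
  have hp0 : 0 < p := by linarith
  constructor
  · intro hH
    choose E hEf hEk using exists_subspace (H := H) hH
    -- radius at stage `m`
    set r : ℕ → ℝ := fun m => 1 - 1 / ((m + 1 : ℕ) : ℝ) with hr
    have hr0 : ∀ m, 0 ≤ r m := by
      intro m
      rw [hr]
      simp only
      rw [sub_nonneg, div_le_one (by positivity)]
      exact_mod_cast Nat.succ_le_succ (Nat.zero_le m)
    have hr1 : ∀ m, r m ≤ 1 := by
      intro m
      have : (0 : ℝ) < 1 / ((m + 1 : ℕ) : ℝ) := by positivity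
      rw [hr]; simp only; linarith
    have hdl0 : ∀ m, 0 ≤ dl (r m) := fun m => tsum_nonneg fun k =>
      mul_nonneg (cf_nonneg k) (sub_nonneg.2 (pow_le_one₀ (hr0 m) (hr1 m)))
    -- the real values
    set v : ℕ → ℝ := fun m => dl (r m) * (rk p m : ℝ) ^ (1 / p) with hv
    have hv_lim : Tendsto v atTop atTop := by
      have h1 : ∀ m : ℕ, Real.log ((m : ℝ) + 2) / 4 ≤ v m := by
        intro m
        have h2 := dl_ge (m + 1) (by omega)
        have h3 := le_rk_rpow p hp m
        have h4 : (0 : ℝ) ≤ Real.log ((m : ℝ) + 2) := Real.log_nonneg (by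
          have := Nat.cast_nonneg (α := ℝ) m; linarith)
        have h5 : (((m + 1 : ℕ) : ℝ) + 1) = (m : ℝ) + 2 := by push_cast; ring
        rw [h5] at h2
        calc Real.log ((m : ℝ) + 2) / 4
            = Real.log ((m : ℝ) + 2) / (2 * ((m + 1 : ℕ) : ℝ)) * (((m : ℝ) + 1) / 2) := by
              push_cast; field_simp; ring
          _ ≤ _ := by
            rw [hv]
            exact mul_le_mul h2 h3 (by positivity) (hdl0 m)
      apply tendsto_atTop_mono h1
      apply Tendsto.atTop_div_const (by norm_num)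
      apply Real.tendsto_log_atTop.comp
      exact tendsto_atTop_add_const_right _ _ tendsto_natCast_atTop_atTop
    obtain ⟨φ, hφ, hvφ⟩ := strictMono_subseq_of_tendsto_atTop hv_lim
    have hPP : ∀ m, (E (rk p m)).starProjection * (E (rk p m)).starProjection =
        (E (rk p m)).starProjection := fun m =>
      (E (rk p m)).isIdempotentElem_starProjection
    have hPs : ∀ m, adjoint (E (rk p m)).starProjection = (E (rk p m)).starProjection := by
      intro m
      ext x
      apply ext_inner_right ℂ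
      intro y
      rw [adjoint_inner_left, Submodule.inner_starProjection_left_eq_right]
    -- `T₁ = 1` as an operator `op 1 P`
    have hop1 : ∀ P : H →L[ℂ] H, op 1 P = 1 := by
      intro P; unfold op; simp
    have hval1 : IsValue fn (1 : H →L[ℂ] H) ((S1 : ℂ) • (1 : H →L[ℂ] H)) := by
      have := isValue_op (H := H) 1 zero_le_one le_rfl (hPP 0) (hPs 0)
      rw [hop1] at this
      have hd : dl 1 = 0 := by unfold dl; simp
      rw [hd] at this
      simpa using this
    have hT : ∀ m, schatten p ((1 : H →L[ℂ] H) - op (r m) (E (rk p m)).starProjection) =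
        ENNReal.ofReal ((1 - r m) * (rk p m : ℝ) ^ (1 / p)) := by
      intro m
      have : (1 : H →L[ℂ] H) - op (r m) (E (rk p m)).starProjection =
          ((1 - r m : ℝ) : ℂ) • (E (rk p m)).starProjection := by
        unfold op; abel
      rw [this, schatten_proj _ p hp.le _ (by linarith [hr1 m]), hEk]
    have hX : ∀ m, schatten p (((S1 : ℂ) • (1 : H →L[ℂ] H)) - ((S1 : ℂ) • (1 : H →L[ℂ] H) -
        (dl (r m) : ℂ) • (E (rk p m)).starProjection)) = ENNReal.ofReal (v m) := by
      intro m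
      rw [sub_sub_cancel, schatten_proj _ p hp.le _ (hdl0 m), hEk]
    refine ⟨fn, 1, (S1 : ℂ) • (1 : H →L[ℂ] H),
      fun n => op (r (φ n)) (E (rk p (φ n))).starProjection,
      fun n => (S1 : ℂ) • (1 : H →L[ℂ] H) - (dl (r (φ n)) : ℂ) • (E (rk p (φ n))).starProjection,
      ?_⟩
    have hn : ∀ n, ‖op (r (φ n)) (E (rk p (φ n))).starProjection‖ = 1 := fun n =>
      norm_op _ hH _ (hr0 _) (hr1 _)
    constructor
    · exact ⟨Real.pi ^ 2, fn_lipschitz⟩
    · exact fn_not_disc
    · exact ContinuousLinearMap.norm_id_le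
    · exact fun n => (hn n).le
    · exact hval1
    · exact fun n => isValue_op _ (hr0 _) (hr1 _) (hPP _) (hPs _)
    · refine lt_of_le_of_lt (iSup_le fun n => ?_) (ENNReal.ofReal_lt_top (r := 1))
      rw [hT]
      apply ENNReal.ofReal_le_ofReal
      have h1 := rk_rpow_le p hp (φ n)
      have h2 : (1 : ℝ) - r (φ n) = 1 / ((φ n : ℝ) + 1) := by
        rw [hr]; push_cast; ring
      rw [h2]
      calc _ ≤ 1 / ((φ n : ℝ) + 1) * ((φ n : ℝ) + 1) := by gcongr
        _ = 1 := by field_simp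
    · intro a b _
      simp only [hn]
      exact le_rfl
    · simp only [hn]
      exact tendsto_const_nhds
    · intro n
      rw [hX]
      exact ENNReal.ofReal_lt_top
    · intro a b hab
      simp only [hX]
      exact ENNReal.ofReal_le_ofReal (hvφ.monotone hab)
    · simp only [hX]
      exact ENNReal.tendsto_ofReal_atTop.comp (hv_lim.comp hφ.tendsto_atTop)
  · intro f hest T1 X1 T0 X0 h1 h0 hv1 hv0 hb ⟨m, hm⟩
    obtain ⟨C, hC, hCest⟩ := hest ‖T0 m‖ hm
    set B := ⨆ n, schatten p (T1 - T0 n) with hB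
    have hBn : ∀ n, schatten p (T1 - T0 n) ≤ B := fun n => le_iSup (fun n => schatten p (T1 - T0 n)) n
    have hneg : ∀ X Y : H →L[ℂ] H, schatten p (X - Y) = schatten p (Y - X) := by
      have hs : ∀ X : H →L[ℂ] H, ∀ n, sNum (-X) n ≤ sNum X n := by
        intro X n
        refine le_iInf₂ fun F hF => ?_
        have hr : LinearMap.range ((-F : H →L[ℂ] H) : H →ₗ[ℂ] H) ≤
            LinearMap.range (F : H →ₗ[ℂ] H) := by
          rintro _ ⟨x, rfl⟩
          exact ⟨-x, by simp⟩
        have := hF.1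
        refine (sNum_le (-X) (-F) n (Submodule.finiteDimensional_of_le hr)
          ((Submodule.finrank_mono hr).trans hF.2)).trans ?_
        have : -X - -F = -(X - F) := by abel
        rw [this, norm_neg]
      have hs2 : ∀ X : H →L[ℂ] H, ∀ n, sNum (-X) n = sNum X n := by
        intro X n
        apply le_antisymm (hs X n)
        have := hs (-X) n
        rwa [neg_neg] at this
      intro X Y
      have : X - Y = -(Y - X) := by abel
      rw [this]
      unfold schatten
      simp only [hs2]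
    have key : ∀ n, schatten p (X1 - X0 n) ≤ 2 * (C * B + C * (2 * (B + B))) := by
      intro n
      have e1 : X1 - X0 n = (X1 - X0 m) + (X0 m - X0 n) := by abel
      have hd : schatten p (T0 n - T0 m) ≤ 2 * (B + B) := by
        have e2 : T0 n - T0 m = (T0 n - T1) + (T1 - T0 m) := by abel
        rw [e2]
        refine (schatten_add_le p hp.le _ _).trans ?_
        rw [hneg (T0 n) T1]
        gcongr
        · exact hBn n
        · exact hBn m
      have hd' : schatten p (T0 n - T0 m) < ∞ :=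
        lt_of_le_of_lt hd (ENNReal.mul_lt_top (by norm_num) (ENNReal.add_lt_top.2 ⟨hb, hb⟩))
      have a1 := hCest T1 X1 (T0 m) (X0 m) le_rfl h1 (lt_of_le_of_lt (hBn m) hb) hv1 (hv0 m)
      have a2 := hCest (T0 n) (X0 n) (T0 m) (X0 m) le_rfl (h0 n) hd' (hv0 n) (hv0 m)
      rw [e1]
      refine (schatten_add_le p hp.le _ _).trans ?_
      rw [hneg (X0 m) (X0 n)]
      gcongr
      · exact a1.trans (by gcongr; exact hBn m)
      · exact a2.trans (by gcongr)
    refine lt_of_le_of_lt (iSup_le key) ?_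
    apply ENNReal.mul_lt_top (by norm_num)
    apply ENNReal.add_lt_top.2
    exact ⟨ENNReal.mul_lt_top hC hb, ENNReal.mul_lt_top hC
      (ENNReal.mul_lt_top (by norm_num) (ENNReal.add_lt_top.2 ⟨hb, hb⟩))⟩

end Pool.Agent.Results.MP_6ade77_an.ContractionBlowUp
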